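import Pool.Agent.H15.F8.Targets2

/-!
# Project MP_f8d35d_nt, module S1: the place of an embedding of a number field in `Om p`
-/

namespace F8

open IsDedekindDomain NumberField UniformSpace

noncomputable section

variable {K : Type} [Field K] [NumberField K] {p : ℕ} [Fact p.Prime] (i : K →+* Om p)

theorem plc_norm_int (x : 𝓞 K) : ‖i (algebraMap (𝓞 K) K x)‖ ≤ 1 := by
  have h1 : IsIntegral ℤ (i (algebraMap (𝓞 K) K x)) := map_isIntegral_int i x.isIntegral_coe
  let w : Valuation (Om p) NNReal := NormedField.valuation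
  have h2 : IsIntegral w.integer (i (algebraMap (𝓞 K) K x)) := h1.tower_top
  have h3 : i (algebraMap (𝓞 K) K x) ∈ w.integer :=
    (Valuation.integer.integers w).mem_of_integral h2
  exact_mod_cast h3

theorem plc_norm_p : ‖((p : ℕ) : Om p)‖ < 1 := by
  have h := PadicAlgCl.norm_extends p (p : ℚ_[p])
  rw [map_natCast] at h
  rw [h]
  exact Padic.norm_p_lt_one

/-- the place of an embedding -/
def plc : HeightOneSpectrum (𝓞 K) where
  asIdeal :=
    { carrier := {x | ‖i (algebraMap (𝓞 K) K x)‖ < 1}
      add_mem' := by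
        intro a b ha hb
        simp only [Set.mem_ofPred_eq] at ha hb ⊢
        rw [map_add, map_add]
        exact lt_of_le_of_lt (IsUltrametricDist.norm_add_le_max _ _) (max_lt ha hb)
      zero_mem' := by simp
      smul_mem' := by
        intro c x hx
        simp only [Set.mem_ofPred_eq] at hx ⊢
        rw [smul_eq_mul, map_mul, map_mul, norm_mul]
        exact lt_of_le_of_lt (mul_le_of_le_one_left (norm_nonneg _) (plc_norm_int i c)) hx }
  isPrime := by
    refine ⟨?_, ?_⟩
    · intro h
      have h1 : (1 : 𝓞 K) ∈ (⊤ : Ideal (𝓞 K)) := trivial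
      rw [← h] at h1
      have h2 : ‖i (algebraMap (𝓞 K) K (1 : 𝓞 K))‖ < 1 := h1
      simp at h2
    · intro x y hxy
      have h2 : ‖i (algebraMap (𝓞 K) K (x * y))‖ < 1 := hxy
      rw [map_mul, map_mul, norm_mul] at h2
      by_contra hcon
      push Not at hcon
      have hx : ¬ ‖i (algebraMap (𝓞 K) K x)‖ < 1 := hcon.1
      have hy : ¬ ‖i (algebraMap (𝓞 K) K y)‖ < 1 := hcon.2
      push Not at hx hy
      have := one_le_mul_of_one_le_of_one_le hx hy
      linarith
  ne_bot := by
    intro h
    have h1 : (p : 𝓞 K) ∈ (⊥ : Ideal (𝓞 K)) := by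
      rw [← h]
      change ‖i (algebraMap (𝓞 K) K (p : 𝓞 K))‖ < 1
      simpa using plc_norm_p
    rw [Ideal.mem_bot] at h1
    have := (Fact.out : p.Prime).ne_zero
    exact this (by exact_mod_cast h1)

theorem plc_mem (x : 𝓞 K) : x ∈ (plc i).asIdeal ↔ ‖i (algebraMap (𝓞 K) K x)‖ < 1 := Iff.rfl

theorem plc_compl (d : (plc i).asIdeal.primeCompl) : ‖i (algebraMap (𝓞 K) K d)‖ = 1 := by
  have h : ¬ ‖i (algebraMap (𝓞 K) K d)‖ < 1 := fun h => d.2 h
  exact le_antisymm (plc_norm_int i _) (not_lt.1 h)

theorem plc_le (x : K) (h : (plc i).valuation K x ≤ 1) : ‖i x‖ ≤ 1 := by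
  obtain ⟨n, d, hnd⟩ := HeightOneSpectrum.exists_primeCompl_mul_eq_of_integer (plc i) x h
  have h1 := congrArg (fun z => ‖i z‖) hnd
  simp only [map_mul, norm_mul] at h1
  have h2 : ‖i (algebraMap (𝓞 K) K d)‖ = 1 := plc_compl i d
  rw [h2, mul_one] at h1
  rw [h1]; exact plc_norm_int i n

theorem plc_lt (x : K) (h : (plc i).valuation K x < 1) : ‖i x‖ < 1 := by
  obtain ⟨n, d, hnd⟩ := HeightOneSpectrum.exists_primeCompl_mul_eq_of_integer (plc i) x h.le
  have h1 := congrArg (fun z => ‖i z‖) hnd
  simp only [map_mul, norm_mul] at h1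
  have h2 : ‖i (algebraMap (𝓞 K) K d)‖ = 1 := plc_compl i d
  rw [h2, mul_one] at h1
  rw [h1]
  have h3 := congrArg ((plc i).valuation K) hnd
  rw [map_mul] at h3
  have h4 : (plc i).valuation K (algebraMap (𝓞 K) K d) = 1 :=
    ((plc i).valuation_eq_one_iff_notMem).2 d.2
  rw [h4, mul_one] at h3
  rw [h3, HeightOneSpectrum.valuation_lt_one_iff_mem] at h
  exact h

theorem plc_le_iff (x : K) : (plc i).valuation K x ≤ 1 ↔ ‖i x‖ ≤ 1 := by
  refine ⟨plc_le i x, fun h => ?_⟩
  by_contra hcon
  push Not at hcon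
  have hx : x ≠ 0 := by
    rintro rfl
    simp at hcon
  have h1 : (plc i).valuation K x⁻¹ < 1 := by
    rw [map_inv₀]
    exact inv_lt_one_of_one_lt₀ hcon
  have h2 := plc_lt i _ h1
  rw [map_inv₀, norm_inv] at h2
  have h3 : 0 < ‖i x‖ := norm_pos_iff.2 ((map_ne_zero i).2 hx)
  have h4 := (inv_lt_one₀ h3).1 h2
  linarith


/-! ### Uniformizer -/

theorem plc_unif : ∃ π : K, (plc i).valuation K π = WithZero.exp (-1 : ℤ) :=
  (plc i).valuation_exists_uniformizer K

/-- a uniformizer -/
def plcPi : K := (plc_unif i).choose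

theorem plcPi_val : (plc i).valuation K (plcPi i) = WithZero.exp (-1 : ℤ) :=
  (plc_unif i).choose_spec

theorem plcPi_ne : plcPi i ≠ 0 := by
  intro h
  have := plcPi_val i
  rw [h, map_zero] at this
  exact WithZero.exp_ne_zero this.symm

theorem plcPi_pos : 0 < ‖i (plcPi i)‖ := norm_pos_iff.2 ((map_ne_zero i).2 (plcPi_ne i))

theorem plcPi_lt : ‖i (plcPi i)‖ < 1 := by
  refine plc_lt i _ ?_
  rw [plcPi_val, ← WithZero.exp_zero, WithZero.exp_lt_exp]
  norm_num

theorem plcPi_pow (n : ℕ) : (plc i).valuation K (plcPi i ^ n) = WithZero.exp (-(n : ℤ)) := by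
  rw [map_pow, plcPi_val, ← WithZero.exp_nsmul]
  simp

theorem plc_small (x : K) (n : ℕ) :
    (plc i).valuation K x ≤ WithZero.exp (-(n : ℤ)) ↔ ‖i x‖ ≤ ‖i (plcPi i)‖ ^ n := by
  have h0 : plcPi i ^ n ≠ 0 := pow_ne_zero _ (plcPi_ne i)
  have h1 : 0 < (plc i).valuation K (plcPi i ^ n) := by
    rw [plcPi_pow]; exact WithZero.exp_pos
  have h2 : 0 < ‖i (plcPi i ^ n)‖ := norm_pos_iff.2 ((map_ne_zero i).2 h0)
  have h3 := plc_le_iff i (x / plcPi i ^ n)
  rw [map_div₀, map_div₀, norm_div, div_le_one₀ h1, div_le_one₀ h2, plcPi_pow, map_pow,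
    norm_pow] at h3
  exact h3

/-! ### The complete subfield of `Om p` generated by the image -/

/-- the finite extension of `ℚ_p` generated by the image of `K` -/
def plcL : IntermediateField ℚ_[p] (Om p) :=
  IntermediateField.adjoin ℚ_[p]
    (Set.range fun k : Fin (Module.finrank ℚ K) => i (Module.finBasis ℚ K k))

instance : FiniteDimensional ℚ_[p] (plcL i) :=
  IntermediateField.finiteDimensional_adjoin
    (fun x _ => Algebra.IsAlgebraic.isAlgebraic x |>.isIntegral)

theorem plcL_mem (x : K) : i x ∈ plcL i := by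
  rw [← (Module.finBasis ℚ K).sum_repr x, map_sum]
  refine sum_mem fun k _ => ?_
  have h : (Module.finBasis ℚ K).repr x k • Module.finBasis ℚ K k =
    (((Module.finBasis ℚ K).repr x k : ℚ) : K) * Module.finBasis ℚ K k := by
    rw [Algebra.smul_def]; rfl
  rw [h, map_mul, map_ratCast]
  refine mul_mem ?_ (IntermediateField.subset_adjoin _ _ ⟨k, rfl⟩)
  exact SubfieldClass.ratCast_mem (plcL i) _

instance : CompleteSpace (plcL i) := by
  have h : FiniteDimensional ℚ_[p] (Subalgebra.toSubmodule (plcL i).toSubalgebra) :=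
    inferInstanceAs (FiniteDimensional ℚ_[p] (plcL i))
  exact (Submodule.complete_of_finiteDimensional
    (Subalgebra.toSubmodule (plcL i).toSubalgebra)).completeSpace_coe

/-- the embedding with values in the complete subfield -/
def plcF : WithVal ((plc i).valuation K) →+* plcL i :=
  RingHom.codRestrict (i.comp (WithVal.equiv ((plc i).valuation K)).toRingHom)
    (plcL i).toSubring (fun _ => plcL_mem i _)

theorem plcF_coe (x : WithVal ((plc i).valuation K)) :
    ((plcF i x : plcL i) : Om p) = i (WithVal.equiv _ x) := rfl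

theorem plcF_unif : IsUniformInducing (plcF i) := by
  rw [Filter.HasBasis.isUniformInducing_iff (Valued.hasBasis_uniformity _ _)
    (Metric.uniformity_basis_dist_le_pow (plcPi_pos i) (plcPi_lt i))]
  have hd : ∀ x y : WithVal ((plc i).valuation K), dist (plcF i x) (plcF i y) =
      ‖i (WithVal.equiv _ (y - x))‖ := by
    intro x y
    rw [dist_comm]
    change dist ((plcF i y : plcL i) : Om p) ((plcF i x : plcL i) : Om p) = _
    rw [dist_eq_norm, plcF_coe, plcF_coe, ← map_sub, ← map_sub]
  have hv : ∀ x : WithVal ((plc i).valuation K), Valued.v x =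
      (plc i).valuation K (WithVal.equiv _ x) := fun x => rfl
  constructor
  · intro n _
    refine ⟨Units.mk0 (Valued.v.restrict
      (((WithVal.equiv ((plc i).valuation K)).symm (plcPi i ^ n)))) ?_, trivial, ?_⟩
    · rw [Valuation.ne_zero_iff]
      exact (map_ne_zero _).2 (pow_ne_zero _ (plcPi_ne i))
    · intro x y h
      rw [Set.mem_ofPred_eq, Units.val_mk0, Valuation.restrict_lt_iff, hv, hv,
        RingEquiv.apply_symm_apply, plcPi_pow] at h
      rw [Set.mem_ofPred_eq, hd]
      exact (plc_small i _ n).1 h.le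
  · intro γ _
    obtain ⟨n, hn⟩ := WithZero.exists_exp_neg_natCast_lt
      (MonoidWithZeroHom.ValueGroup₀.embedding_unit_ne_zero γ)
    refine ⟨n, trivial, fun x y h => ?_⟩
    rw [Set.mem_ofPred_eq, hd] at h
    rw [Set.mem_ofPred_eq, Valuation.restrict_lt_iff_lt_embedding, hv]
    exact lt_of_le_of_lt ((plc_small i _ n).2 h) hn

theorem plcF_cont : Continuous (plcF i) := (plcF_unif i).uniformContinuous.continuous

/-- the extension to the completion, with values in the complete subfield -/
def plcG : ((plc i).valuation K).Completion →+* plcL i :=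
  UniformSpace.Completion.extensionHom (plcF i) (plcF_cont i)

theorem plcG_coe (x : WithVal ((plc i).valuation K)) : plcG i x = plcF i x :=
  UniformSpace.Completion.extensionHom_coe (plcF i) (plcF_cont i) x

theorem plcG_unif : IsUniformInducing (plcG i) :=
  UniformSpace.Completion.isUniformInducing_extension (plcF_unif i)

/-- the embedding of the completion -/
def plcJ : (plc i).adicCompletion K →+* Om p :=
  (plcL i).toSubring.subtype.comp
    ((plcG i).comp (HeightOneSpectrum.adicCompletion.equiv K (plc i)).toRingHom)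

theorem plcJ_apply (x : (plc i).adicCompletion K) :
    plcJ i x = ((plcG i x.toCompletion : plcL i) : Om p) := rfl

theorem plcJ_cont : Continuous (plcJ i) :=
  continuous_subtype_val.comp ((plcG_unif i).uniformContinuous.continuous.comp
    (HeightOneSpectrum.adicCompletion.continuous_toCompletion K (plc i)))

theorem plcJ_coe (x : K) : plcJ i (algebraMap K ((plc i).adicCompletion K) x) = i x := by
  rw [plcJ_apply]
  have h : (algebraMap K ((plc i).adicCompletion K) x).toCompletion =
    (((WithVal.equiv ((plc i).valuation K)).symm x : WithVal ((plc i).valuation K)) :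
      ((plc i).valuation K).Completion) := rfl
  rw [h, plcG_coe, plcF_coe, RingEquiv.apply_symm_apply]

/-- `ℚ_p` lies in the image of the completion. -/
theorem plcJ_range (a : ℚ_[p]) : ∃ x, plcJ i x = algebraMap ℚ_[p] (Om p) a := by
  have hc : IsClosed (Set.range (plcG i)) := (plcG_unif i).isComplete_range.isClosed
  have hcont : Continuous (algebraMap ℚ_[p] (plcL i)) := by
    rw [continuous_induced_rng]
    exact (continuous_algebraMap ℚ_[p] (Om p))
  have h : ∀ a : ℚ_[p], algebraMap ℚ_[p] (plcL i) a ∈ Set.range (plcG i) := by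
    intro a
    induction a using isClosed_property (Padic.denseRange_ratCast p)
    · exact hc.preimage hcont
    · rename_i q
      refine ⟨(((q : WithVal ((plc i).valuation K))) : ((plc i).valuation K).Completion), ?_⟩
      rw [plcG_coe, map_ratCast, map_ratCast]
  obtain ⟨z, hz⟩ := h a
  refine ⟨HeightOneSpectrum.adicCompletion.ofCompletion z, ?_⟩
  rw [plcJ_apply, HeightOneSpectrum.adicCompletion.toCompletion_ofCompletion, hz]
  rfl

theorem gal_cont (g : Gp p) : Continuous g := by
  have h : Isometry g := by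
    refine AddMonoidHomClass.isometry_of_norm g (fun x => norm_gal g x)
  exact h.continuous

/-- **S1** -/
theorem placeStmt : PlaceStmt := by
  intro K _ _ p _ i
  refine ⟨plc i, plcJ i, plcJ_coe i, fun y => ?_, fun g hg x => ?_⟩
  · have hy : IsIntegral ℚ_[p] y := (Algebra.IsAlgebraic.isAlgebraic y).isIntegral
    have hl : (minpoly ℚ_[p] y).map (algebraMap ℚ_[p] (Om p)) ∈
        Polynomial.lifts (plcJ i) := by
      rw [Polynomial.lifts_iff_coeff_lifts]
      intro n
      rw [Polynomial.coeff_map]
      obtain ⟨x, hx⟩ := plcJ_range i ((minpoly ℚ_[p] y).coeff n)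
      exact ⟨x, hx⟩
    obtain ⟨q, hq⟩ := (Polynomial.mem_lifts _).1 hl
    refine ⟨q, ?_, ?_⟩
    · rintro rfl
      rw [Polynomial.map_zero] at hq
      have := (Polynomial.map_eq_zero (algebraMap ℚ_[p] (Om p))).1 hq.symm
      exact minpoly.ne_zero hy this
    · rw [Polynomial.eval₂_eq_eval_map, hq, ← Polynomial.eval₂_eq_eval_map]
      exact minpoly.aeval ℚ_[p] y
  · have hcl : IsClosed {x | g (plcJ i x) = plcJ i x} :=
      isClosed_eq ((gal_cont g).comp (plcJ_cont i)) (plcJ_cont i)
    refine isClosed_property (HeightOneSpectrum.denseRange_algebraMap K (plc i)) hcl ?_ x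
    intro a
    change g (plcJ i (algebraMap K _ a)) = plcJ i (algebraMap K _ a)
    rw [plcJ_coe, hg]

end

end F8
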